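import Pool.Agent.K1H73.RDW.Sysm

/-!
# Arithmetic progressions: the sieve product of `m ↦ F (a + q m)`
-/

set_option autoImplicit false

namespace Pool.Agent.K1H73.RDW

open Finset Filter Polynomial
open Pool.Agent.Y816.PD

theorem PF.affine {k : ℕ} {F : ℕ → ℤ} (h : PF k F) (a q : ℕ) : PF k (fun m => F (a + q * m)) := by
  obtain ⟨P, hP, hG⟩ := h
  refine ⟨P.comp (C (q : ℤ) * X + C (a : ℤ)), ?_, fun n => ?_⟩
  · rw [natDegree_comp]
    calc P.natDegree * (C (q : ℤ) * X + C (a : ℤ)).natDegree ≤ P.natDegree * 1 :=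
          Nat.mul_le_mul_left _ (natDegree_linear_le)
      _ ≤ k := by rw [mul_one]; exact hP
  · show _ = F (a + q * n)
    rw [eval_comp, eval_add, eval_mul, eval_X, eval_C, eval_C, ← hG (a + q * n)]
    congr 1
    push_cast
    ring

/-- the zeros for a prime which does not divide `q` -/
theorem om_affine {k : ℕ} {F : ℕ → ℤ} (h : PF k F) (a : ℕ) {q p : ℕ} (hp : p.Prime) (hq : ¬ p ∣ q) :
    om (fun m => F (a + q * m)) p = om F p := by
  classical
  have hp0 := hp.pos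
  have hcop : Nat.Coprime p q := (Nat.Prime.coprime_iff_not_dvd hp).2 hq
  have hcong : ∀ x : ℕ, (p : ℤ) ∣ F x ↔ (p : ℤ) ∣ F (x % p) := by
    intro x
    apply h.dvd_iff
    have h4 : (x : ℤ) = (x % p : ℕ) + p * (x / p : ℕ) := by exact_mod_cast (Nat.mod_add_div x p).symm
    exact ⟨((x / p : ℕ) : ℤ), by linarith⟩
  unfold om
  apply card_bij (fun m _ => (a + q * m) % p)
  · intro m hm
    rw [mem_filter] at hm ⊢
    refine ⟨mem_range.2 (Nat.mod_lt _ hp0), ?_⟩
    rw [← hcong]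
    exact hm.2
  · intro m hm m' hm' he
    rw [mem_filter, mem_range] at hm hm'
    have h1 : a + q * m ≡ a + q * m' [MOD p] := he
    have h2 : q * m ≡ q * m' [MOD p] := Nat.ModEq.add_left_cancel' a h1
    have h3 : m ≡ m' [MOD p] := Nat.ModEq.cancel_left_of_coprime hcop h2
    exact Nat.ModEq.eq_of_lt_of_lt h3 hm.1 hm'.1
  · intro x hx
    rw [mem_filter, mem_range] at hx
    -- the injective map on `range p` is surjective
    have hinj : Set.InjOn (fun m => (a + q * m) % p) (range p : Finset ℕ) := by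
      intro m hm m' hm' he
      rw [mem_coe, mem_range] at hm hm'
      have h1 : a + q * m ≡ a + q * m' [MOD p] := he
      have h2 : q * m ≡ q * m' [MOD p] := Nat.ModEq.add_left_cancel' a h1
      have h3 : m ≡ m' [MOD p] := Nat.ModEq.cancel_left_of_coprime hcop h2
      exact Nat.ModEq.eq_of_lt_of_lt h3 hm hm'
    have hmaps : ∀ m ∈ range p, (a + q * m) % p ∈ range p := fun m _ => mem_range.2 (Nat.mod_lt _ hp0)
    have hsurj := surj_on_of_inj_on_of_card_le (s := range p) (t := range p) (fun m _ => (a + q * m) % p)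
      (fun m hm => hmaps m hm) (fun m m' hm hm' he => hinj (mem_coe.2 hm) (mem_coe.2 hm') he) le_rfl x (mem_range.2 hx.1)
    obtain ⟨m, hm, hmx⟩ := hsurj
    refine ⟨m, ?_, hmx.symm⟩
    rw [mem_filter]
    refine ⟨hm, ?_⟩
    rw [hcong, ← hmx]
    exact hx.2

/-- no zeros for the primes dividing `q` -/
theorem om_affine' {k : ℕ} {F : ℕ → ℤ} (h : PF k F) {a q p : ℕ} (hq : p ∣ q) (ha : ¬ (p : ℤ) ∣ F a) :
    om (fun m => F (a + q * m)) p = 0 := by
  classical
  unfold om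
  rw [card_eq_zero, filter_eq_empty_iff]
  intro m _ hd
  apply ha
  refine (h.dvd_iff ?_).1 hd
  push_cast
  rw [add_sub_cancel_left]
  exact Dvd.dvd.mul_right (Int.natCast_dvd_natCast.2 hq) _

theorem NF.affine {k : ℕ} {F : ℕ → ℤ} (h : PF k F) (hn : NF F) {a q : ℕ} (hcop : IsCoprime (F a) (q : ℤ)) :
    NF (fun m => F (a + q * m)) := by
  classical
  intro p hp
  by_contra hcon
  push Not at hcon
  by_cases hq : p ∣ q
  · have h1 := hcon 0
    rw [mul_zero, add_zero] at h1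
    have h2 : (p : ℤ) ∣ (q : ℤ) := Int.natCast_dvd_natCast.2 hq
    have h3 := hcop.isUnit_of_dvd' h1 h2
    rw [Int.isUnit_iff_natAbs_eq, Int.natAbs_natCast] at h3
    exact hp.one_lt.ne' h3
  · have h1 := om_lt h hn hp
    rw [← om_affine h a hp hq] at h1
    unfold om at h1
    rw [filter_true_of_mem (fun n _ => hcon n), card_range] at h1
    omega

/-- the factor of the progression -/
noncomputable def Phi (F : ℕ → ℤ) (q : ℕ) : ℝ := ∏ p ∈ q.primeFactors, (1 - (om F p : ℝ) / p)⁻¹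

theorem fac_pos {k : ℕ} {F : ℕ → ℤ} (h : PF k F) (hn : NF F) {p : ℕ} (hp : p.Prime) : 0 < 1 - (om F p : ℝ) / p := by
  refine lt_of_lt_of_le ?_ (fac_nonneg h hn hp)
  have : (0 : ℝ) < p := by exact_mod_cast hp.pos
  positivity

theorem one_le_fac_inv {k : ℕ} {F : ℕ → ℤ} (h : PF k F) (hn : NF F) {p : ℕ} (hp : p.Prime) :
    1 ≤ (1 - (om F p : ℝ) / p)⁻¹ := by
  rw [one_le_inv₀ (fac_pos h hn hp)]
  exact fac_le F p

/-- **The sieve product of a progression.** -/
theorem WG_affine (k E : ℕ) : ∃ v : ℝ, 0 < v ∧ ∀ F : ℕ → ℤ, PF k F → NF F → ∀ x : ℕ, 2 * k + 2 ≤ x →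
    ∀ a q : ℕ, 1 ≤ q → q ≤ x ^ E → IsCoprime (F a) (q : ℤ) →
    v * Phi F q * WG F x ≤ WG (fun m => F (a + q * m)) x ∧ WG (fun m => F (a + q * m)) x ≤ Phi F q * WG F x := by
  classical
  refine ⟨(1 / 2) ^ E, by positivity, fun F hF hn x hx a q hq1 hqx hcop => ?_⟩
  have hW := WG_nonneg F x
  -- the formula
  have hform : WG (fun m => F (a + q * m)) x =
      (∏ p ∈ q.primeFactors.filter (fun p => p ≤ x), (1 - (om F p : ℝ) / p)⁻¹) * WG F x := by
    rw [WG_om, WG_om]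
    have hsub : q.primeFactors.filter (fun p => p ≤ x) ⊆ (Icc 1 x).filter Nat.Prime := by
      intro p hp
      rw [mem_filter] at hp
      have hpp := Nat.prime_of_mem_primeFactors hp.1
      rw [mem_filter, mem_Icc]
      exact ⟨⟨hpp.pos, hp.2⟩, hpp⟩
    rw [← prod_sdiff hsub, ← prod_sdiff hsub]
    have h1 : ∏ p ∈ q.primeFactors.filter (fun p => p ≤ x), (1 - (om (fun m => F (a + q * m)) p : ℝ) / p) = 1 := by
      apply prod_eq_one
      intro p hp
      rw [mem_filter] at hp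
      have hpp := Nat.prime_of_mem_primeFactors hp.1
      have hpq := Nat.dvd_of_mem_primeFactors hp.1
      rw [om_affine' hF hpq (fun hd => by
        have h3 := hcop.isUnit_of_dvd' hd (Int.natCast_dvd_natCast.2 hpq)
        rw [Int.isUnit_iff_natAbs_eq, Int.natAbs_natCast] at h3
        exact hpp.one_lt.ne' h3)]
      simp
    have h2 : ∏ p ∈ ((Icc 1 x).filter Nat.Prime) \ (q.primeFactors.filter (fun p => p ≤ x)),
        (1 - (om (fun m => F (a + q * m)) p : ℝ) / p) =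
        ∏ p ∈ ((Icc 1 x).filter Nat.Prime) \ (q.primeFactors.filter (fun p => p ≤ x)), (1 - (om F p : ℝ) / p) := by
      apply prod_congr rfl
      intro p hp
      rw [Finset.mem_sdiff, mem_filter, mem_filter, mem_Icc] at hp
      have hnd : ¬ p ∣ q := fun hd => hp.2 ⟨Nat.mem_primeFactors.2 ⟨hp.1.2, hd, by omega⟩, hp.1.1.2⟩
      rw [om_affine hF a hp.1.2 hnd]
    rw [h1, h2, mul_one]
    have h3 : (∏ p ∈ q.primeFactors.filter (fun p => p ≤ x), (1 - (om F p : ℝ) / p)⁻¹) *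
        ∏ p ∈ q.primeFactors.filter (fun p => p ≤ x), (1 - (om F p : ℝ) / p) = 1 := by
      rw [← prod_mul_distrib]
      apply prod_eq_one
      intro p hp
      have := fac_pos hF hn (Nat.prime_of_mem_primeFactors (mem_filter.1 hp).1)
      exact inv_mul_cancel₀ this.ne'
    calc ∏ p ∈ ((Icc 1 x).filter Nat.Prime) \ (q.primeFactors.filter (fun p => p ≤ x)), (1 - (om F p : ℝ) / p) =
        (∏ p ∈ ((Icc 1 x).filter Nat.Prime) \ (q.primeFactors.filter (fun p => p ≤ x)), (1 - (om F p : ℝ) / p)) *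
        ((∏ p ∈ q.primeFactors.filter (fun p => p ≤ x), (1 - (om F p : ℝ) / p)⁻¹) *
        ∏ p ∈ q.primeFactors.filter (fun p => p ≤ x), (1 - (om F p : ℝ) / p)) := by rw [h3, mul_one]
      _ = _ := by ring
  have hPhi : Phi F q = (∏ p ∈ q.primeFactors.filter (fun p => p ≤ x), (1 - (om F p : ℝ) / p)⁻¹) *
      ∏ p ∈ q.primeFactors.filter (fun p => ¬ p ≤ x), (1 - (om F p : ℝ) / p)⁻¹ := by
    unfold Phi
    rw [prod_filter_mul_prod_filter_not]
  have hP1 : 0 ≤ ∏ p ∈ q.primeFactors.filter (fun p => p ≤ x), (1 - (om F p : ℝ) / p)⁻¹ := by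
    apply prod_nonneg
    intro p hp
    exact zero_le_one.trans (one_le_fac_inv hF hn (Nat.prime_of_mem_primeFactors (mem_filter.1 hp).1))
  have hP2 : 1 ≤ ∏ p ∈ q.primeFactors.filter (fun p => ¬ p ≤ x), (1 - (om F p : ℝ) / p)⁻¹ := by
    apply Finset.prod_induction _ (fun x : ℝ => 1 ≤ x) (fun a b ha hb => one_le_mul_of_one_le_of_one_le ha hb) le_rfl
    intro p hp
    exact one_le_fac_inv hF hn (Nat.prime_of_mem_primeFactors (mem_filter.1 hp).1)
  have hP3 : ∏ p ∈ q.primeFactors.filter (fun p => ¬ p ≤ x), (1 - (om F p : ℝ) / p)⁻¹ ≤ 2 ^ E := by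
    have hcard : (q.primeFactors.filter (fun p => ¬ p ≤ x)).card ≤ E := by
      by_contra hcon
      rw [not_le] at hcon
      obtain ⟨S, hS⟩ : ∃ S, S = q.primeFactors.filter (fun p => ¬ p ≤ x) := ⟨_, rfl⟩
      rw [← hS] at hcon
      have h1 : ∏ p ∈ S, p ∣ q := by
        have h2 : S ⊆ q.primeFactors := by rw [hS]; exact filter_subset _ _
        exact (prod_dvd_prod_of_subset _ _ _ h2).trans (Nat.prod_primeFactors_dvd q)
      have h2 : x ^ S.card ≤ ∏ p ∈ S, p := by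
        rw [← prod_const]
        apply prod_le_prod'
        intro p hp
        rw [hS, mem_filter] at hp
        omega
      have h3 := Nat.le_of_dvd (by omega) h1
      have h4 : x ^ E < x ^ S.card := Nat.pow_lt_pow_right (by omega) hcon
      omega
    calc ∏ p ∈ q.primeFactors.filter (fun p => ¬ p ≤ x), (1 - (om F p : ℝ) / p)⁻¹ ≤
        ∏ p ∈ q.primeFactors.filter (fun p => ¬ p ≤ x), (2 : ℝ) := by
          apply Finset.prod_le_prod
          · intro p hp
            exact zero_le_one.trans (one_le_fac_inv hF hn (Nat.prime_of_mem_primeFactors (mem_filter.1 hp).1))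
          · intro p hp
            rw [mem_filter] at hp
            have hpp := Nat.prime_of_mem_primeFactors hp.1
            have hp0 : (0 : ℝ) < p := by exact_mod_cast hpp.pos
            have h1 := om_le hF hn hpp
            have h2 : (om F p : ℝ) / p ≤ 1 / 2 := by
              rw [div_le_div_iff₀ hp0 (by norm_num)]
              have h3 : om F p * 2 ≤ 1 * p := by omega
              exact_mod_cast h3
            rw [inv_le_comm₀ (by linarith) (by norm_num)]
            linarith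
      _ = 2 ^ (q.primeFactors.filter (fun p => ¬ p ≤ x)).card := prod_const _
      _ ≤ 2 ^ E := pow_le_pow_right₀ (by norm_num) hcard
  rw [hform]
  constructor
  · have h1 : (1 / 2 : ℝ) ^ E * Phi F q ≤ ∏ p ∈ q.primeFactors.filter (fun p => p ≤ x), (1 - (om F p : ℝ) / p)⁻¹ := by
      rw [hPhi]
      calc (1 / 2 : ℝ) ^ E * ((∏ p ∈ q.primeFactors.filter (fun p => p ≤ x), (1 - (om F p : ℝ) / p)⁻¹) *
          ∏ p ∈ q.primeFactors.filter (fun p => ¬ p ≤ x), (1 - (om F p : ℝ) / p)⁻¹) ≤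
          (1 / 2 : ℝ) ^ E * ((∏ p ∈ q.primeFactors.filter (fun p => p ≤ x), (1 - (om F p : ℝ) / p)⁻¹) * 2 ^ E) := by
            apply mul_le_mul_of_nonneg_left _ (by positivity)
            exact mul_le_mul_of_nonneg_left hP3 hP1
        _ = ((1 / 2 : ℝ) * 2) ^ E * (∏ p ∈ q.primeFactors.filter (fun p => p ≤ x), (1 - (om F p : ℝ) / p)⁻¹) := by
            rw [mul_pow]; ring
        _ = _ := by norm_num
    exact mul_le_mul_of_nonneg_right h1 hW
  · rw [hPhi]
    apply mul_le_mul_of_nonneg_right _ hW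
    exact le_mul_of_one_le_right hP1 hP2

/-- **Restricted digits in windows for systems of polynomials along arithmetic progressions.** -/
theorem mainAP {ι : Type} [Fintype ι] (f : ι → ℤ[X]) (hf : Pool.Agent.W123.RU.Poly.Sys f) (k : ℕ)
    (hk : Fintype.card ι = k) (hk1 : 1 ≤ k) (E : ℕ) :
    ∃ c : ℝ, 0 < c ∧ ∃ r0 : ℕ, 2 ≤ r0 ∧ ∀ r : ℕ, r0 ≤ r → ∀ b : ℕ, 2 ≤ b → ∃ κ C : ℝ, 0 < κ ∧ 0 < C ∧
      ∀ᶠ L : ℕ in atTop, ∀ K : ℕ, K = Nat.log b (L / 3) → 2 * r ≤ K ∧ b ^ K ≤ L ∧ L < b ^ (4 * K) ∧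
        ∀ q a : ℕ, 1 ≤ q → q ≤ L ^ E → a ≤ L ^ E → (∀ i, IsCoprime ((f i).eval (a : ℤ)) (q : ℤ)) →
        (∃ d < b, ∀ i, IsCoprime ((f i).eval ((a + q * d : ℕ) : ℤ)) (b : ℤ)) ∧
        ∀ B : ℕ, B ≤ L ^ E →
        ∀ A : ℕ → Finset ℕ, (∀ i < K, A i ⊆ range b) → (b : ℝ) ^ K ≤ Real.exp (c * K) * NA K A →
        (∀ T : Set ℕ, T.Finite → (∀ m, B < m → m ≤ B + L → (∀ i, (f i).eval ((a + q * m : ℕ) : ℤ) ≠ 0 ∧
            ((f i).eval ((a + q * m : ℕ) : ℤ)).natAbs.primeFactorsList.length ≤ r ∧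
            ∀ p : ℕ, p.Prime → (p : ℤ) ∣ (f i).eval ((a + q * m : ℕ) : ℤ) → b ^ K < p ^ r) → m ∈ T) →
          (∃ d ∈ A 0, ∀ i, IsCoprime ((f i).eval ((a + q * d : ℕ) : ℤ)) (b : ℤ)) →
          κ * Phi (GS f) q * NA K A / (K : ℝ) ^ k ≤ DC b K A T) ∧
        (∀ T S : Set ℕ, S.Finite → S.ncard ≤ 4 * (Nat.sqrt (b ^ K) + 4) →
          (∀ m ∈ T, (B < m ∧ m ≤ B + L) ∧ (m ∈ S ∨ ∀ i, ∀ p : ℕ, p.Prime →
            (p : ℤ) ∣ (f i).eval ((a + q * m : ℕ) : ℤ) → b ^ K ≤ p ^ r)) →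
          (DC b K A T : ℝ) ≤ C * Phi (GS f) q * NA K A / (K : ℝ) ^ k) := by
  classical
  have hι : Nonempty ι := Fintype.card_pos_iff.1 (by omega)
  have hd0 : 1 ≤ (∏ i, f i).natDegree := by
    obtain ⟨i⟩ := hι
    have hne : ∏ j, f j ≠ 0 := prod_ne_zero_iff.2 fun j _ => (hf.irr j).ne_zero
    exact (hf.deg i).trans_le (natDegree_le_of_dvd (dvd_prod_of_mem _ (mem_univ i)) hne)
  obtain ⟨B0, D0, hBD⟩ := bound_all (fun _ : Unit => ∏ i, f i)
  obtain ⟨c, hc, r0, hr0, h⟩ := main (∏ i, f i).natDegree ((2 * E + 5) * D0 + 1) hd0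
  refine ⟨c, hc, r0, hr0, fun r hr b hb => ?_⟩
  obtain ⟨κ, C, hκ, hC, h1⟩ := h r hr b hb
  obtain ⟨v, Cv, hv, hCv, hV⟩ := Pool.Agent.W123.RU.Poly.V_bounds f hf
  rw [hk] at hV
  obtain ⟨u, hu, hAff⟩ := WG_affine (∏ i, f i).natDegree (4 * E)
  have hb1 : (1 : ℝ) < b := by exact_mod_cast (by omega : 1 < b)
  have hlb : 0 < Real.log b := Real.log_pos hb1
  refine ⟨κ * (u * (v / Real.log b ^ k)), C * (Cv / Real.log b ^ k), by positivity, by positivity, ?_⟩
  filter_upwards [h1, eventually_ge_atTop (3 * b ^ (2 * r + 3 + 2 * (∏ i, f i).natDegree)),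
    eventually_ge_atTop (B0 + 3)] with L hL hL2 hL3 K hK
  obtain ⟨hKK, hb3, hb4⟩ := log_three hb (2 * r + 3 + 2 * (∏ i, f i).natDegree) hL2 hK
  obtain ⟨e1, e2, e3, e4⟩ := hL K hK
  refine ⟨by omega, e2, e3, fun q a hq1 hqL haL hcopa => ?_⟩
  have hF := PF_GS f
  have hNF := NF_GS hf
  have hcop : IsCoprime (GS f a) (q : ℤ) := IsCoprime.prod_left fun i _ => hcopa i
  have hPF := hF.affine a q
  have hNFq := hNF.affine hF hcop
  refine ⟨?_, fun B hB A hA hprod => ?_⟩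
  · obtain ⟨d, hd, hd2⟩ := exists_digit hPF hNFq (show 0 < b by omega)
    refine ⟨d, hd, fun i => ?_⟩
    rw [cop_iff] at hd2
    exact hd2.of_isCoprime_of_dvd_left (dvd_prod_of_mem (fun i => (f i).eval ((a + q * d : ℕ) : ℤ)) (mem_univ i))
  have hNA := NA_nonneg K A
  have hK0 : (0 : ℝ) < K := by exact_mod_cast e1
  have hsize : ∀ m : ℕ, m < B + 2 * L → (GS f (a + q * m)).natAbs ≤ L ^ ((2 * E + 5) * D0 + 1) := by
    intro m hm
    have h2 := hBD () (a + q * m)
    rw [eval_prod] at h2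
    have h3 : ((GS f (a + q * m)).natAbs : ℝ) ≤ B0 * (1 + ((a + q * m : ℕ) : ℝ)) ^ D0 := by
      rw [Nat.cast_natAbs, Int.cast_abs]
      exact h2
    have h4 : (GS f (a + q * m)).natAbs ≤ B0 * (1 + (a + q * m)) ^ D0 := by exact_mod_cast h3
    have h5 : 1 + (a + q * m) ≤ L ^ (2 * E + 5) := by
      have h6 : L ≤ L ^ (E + 1) := Nat.le_self_pow (by omega) L
      have h7 : L ^ E ≤ L ^ (E + 1) := Nat.pow_le_pow_right (by omega) (by omega)
      have h8 : m ≤ 3 * L ^ (E + 1) := by omega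
      have h9 : q * m ≤ L ^ E * (3 * L ^ (E + 1)) := Nat.mul_le_mul hqL h8
      have h10 : 1 ≤ L ^ E := Nat.one_le_pow _ _ (by omega)
      have h11 : 1 ≤ L ^ (E + 1) := Nat.one_le_pow _ _ (by omega)
      have h12 : L ^ E ≤ L ^ E * L ^ (E + 1) := Nat.le_mul_of_pos_right _ (by omega)
      calc 1 + (a + q * m) ≤ 5 * (L ^ E * L ^ (E + 1)) := by nlinarith
        _ ≤ L ^ 4 * (L ^ E * L ^ (E + 1)) := by
            apply Nat.mul_le_mul_right
            calc 5 ≤ 3 ^ 4 := by norm_num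
              _ ≤ L ^ 4 := Nat.pow_le_pow_left (by omega) 4
        _ = L ^ (2 * E + 5) := by rw [← pow_add, ← pow_add]; congr 1; ring
    calc (GS f (a + q * m)).natAbs ≤ B0 * (1 + (a + q * m)) ^ D0 := h4
      _ ≤ L * (L ^ (2 * E + 5)) ^ D0 := Nat.mul_le_mul (by omega) (Nat.pow_le_pow_left h5 _)
      _ = L ^ ((2 * E + 5) * D0 + 1) := by rw [← pow_mul]; ring
  obtain ⟨h5, h6⟩ := e4 (fun m => GS f (a + q * m)) hPF hNFq B hsize A hA hprod
  have hKb : K < b ^ K := Nat.lt_pow_self (by omega)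
  obtain ⟨hV1, hV2⟩ := hV (b ^ K) (by omega)
  rw [← WG_GS, Nat.cast_pow, Real.log_pow, mul_pow] at hV1 hV2
  have e5 : ∀ x : ℝ, x / ((K : ℝ) ^ k * Real.log b ^ k) = x / Real.log b ^ k / (K : ℝ) ^ k := by
    intro x
    rw [div_div, mul_comm]
  rw [e5] at hV1 hV2
  obtain ⟨hA1, hA2⟩ := hAff (GS f) hF hNF (b ^ K) (by omega) a q hq1 (by
    refine hqL.trans ?_
    calc L ^ E ≤ (b ^ (4 * K)) ^ E := Nat.pow_le_pow_left e3.le E
      _ = (b ^ K) ^ (4 * E) := by rw [← pow_mul, ← pow_mul]; congr 1; ring) hcop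
  have hPhi0 : 0 ≤ Phi (GS f) q := by
    unfold Phi
    exact prod_nonneg fun p hp => zero_le_one.trans (one_le_fac_inv hF hNF (Nat.prime_of_mem_primeFactors hp))
  constructor
  · intro T hT hTA hd
    have h7 := h5 T hT (fun m hm1 hm2 hm3 => hTA m hm1 hm2 fun i => by
      obtain ⟨hm4, hm5⟩ := hm3
      have hne : GS f (a + q * m) ≠ 0 := by
        intro h0
        have h8 := hm4 2 Nat.prime_two (by
          show (2 : ℤ) ∣ GS f (a + q * m)
          rw [h0]; exact dvd_zero _)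
        have h9 : 2 ^ r ≤ 2 ^ K := Nat.pow_le_pow_right (by norm_num) (by omega)
        have h10 : 2 ^ K ≤ b ^ K := Nat.pow_le_pow_left hb K
        omega
      have hdv : (f i).eval ((a + q * m : ℕ) : ℤ) ∣ GS f (a + q * m) :=
        dvd_prod_of_mem (fun i => (f i).eval ((a + q * m : ℕ) : ℤ)) (mem_univ i)
      refine ⟨fun h0 => hne (by rw [h0] at hdv; exact zero_dvd_iff.1 hdv), ?_, fun p hp hd => hm4 p hp (hd.trans hdv)⟩
      exact (Nat.primeFactorsList_sublist_of_dvd (Int.natAbs_dvd_natAbs.2 hdv) (Int.natAbs_ne_zero.2 hne)).length_le.trans hm5)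
      (by
        obtain ⟨d, hd, hd2⟩ := hd
        refine ⟨d, hd, ?_⟩
        rw [cop_iff]
        exact IsCoprime.prod_left fun i _ => hd2 i)
    refine le_trans ?_ h7
    calc κ * (u * (v / Real.log b ^ k)) * Phi (GS f) q * NA K A / (K : ℝ) ^ k =
        κ * NA K A * (u * Phi (GS f) q * (v / Real.log b ^ k / (K : ℝ) ^ k)) := by ring
      _ ≤ κ * NA K A * (u * Phi (GS f) q * WG (GS f) (b ^ K)) := by
          apply mul_le_mul_of_nonneg_left _ (by positivity)
          exact mul_le_mul_of_nonneg_left hV1 (by positivity)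
      _ ≤ _ := mul_le_mul_of_nonneg_left hA1 (by positivity)
  · intro T S hS hSc hTS
    have h7 := h6 T S hS hSc (fun m hm => by
      obtain ⟨h8, h9⟩ := hTS m hm
      refine ⟨h8, ?_⟩
      rcases h9 with h9 | h9
      · exact Or.inl h9
      · right
        intro p hp hd
        have hd' : (p : ℤ) ∣ GS f (a + q * m) := hd
        rw [dvd_GS f hp] at hd'
        obtain ⟨i, hi⟩ := hd'
        exact h9 i p hp hi)
    refine h7.trans ?_
    calc C * NA K A * WG (fun m => GS f (a + q * m)) (b ^ K) ≤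
        C * NA K A * (Phi (GS f) q * (Cv / Real.log b ^ k / (K : ℝ) ^ k)) := by
          apply mul_le_mul_of_nonneg_left _ (by positivity)
          exact hA2.trans (mul_le_mul_of_nonneg_left hV2 hPhi0)
      _ = _ := by ring

end Pool.Agent.K1H73.RDW
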