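import Pool.Agent.K1H73.RDW.Fin

/-!
# Products of linear factors
-/

set_option autoImplicit false

namespace Pool.Agent.K1H73.RDW

open Finset Filter Polynomial
open Pool.Agent.Y816.PD

/-- the product of the `m - h` -/
def GH (H : Finset ℤ) (m : ℕ) : ℤ := ∏ h ∈ H, ((m : ℤ) - h)

/-- the number of the classes occupied -/
def nu (H : Finset ℤ) (p : ℕ) : ℕ := (H.image (fun h : ℤ => h % (p : ℤ))).card

theorem PF_GH (H : Finset ℤ) {k : ℕ} (hk : H.card ≤ k) : PF k (GH H) := by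
  refine ⟨∏ h ∈ H, (X - C h), ?_, fun n => ?_⟩
  · refine (natDegree_prod_le _ _).trans ?_
    simp only [natDegree_X_sub_C, sum_const, smul_eq_mul, mul_one]
    exact hk
  · unfold GH
    rw [eval_prod]
    simp only [eval_sub, eval_X, eval_C]

theorem dvd_GH (H : Finset ℤ) {p : ℕ} (hp : p.Prime) (m : ℕ) : (p : ℤ) ∣ GH H m ↔ ∃ h ∈ H, (p : ℤ) ∣ (m : ℤ) - h := by
  unfold GH
  exact (Nat.prime_iff_prime_int.1 hp).dvd_finsetProd_iff _

theorem dvd_sub_iff {p : ℕ} (hp : 0 < p) (m : ℕ) (h : ℤ) : (p : ℤ) ∣ (m : ℤ) - h ↔ ((m % p : ℕ) : ℤ) = h % (p : ℤ) := by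
  rw [Int.natCast_mod]
  constructor
  · intro h1
    exact ((Int.modEq_iff_dvd).2 h1).symm
  · intro h1
    exact (Int.modEq_iff_dvd).1 (show h ≡ (m : ℤ) [ZMOD p] from h1.symm)

theorem om_GH (H : Finset ℤ) {p : ℕ} (hp : p.Prime) : om (GH H) p = nu H p := by
  classical
  unfold om nu
  have hp0 : (0 : ℤ) < p := by exact_mod_cast hp.pos
  have e : H.image (fun h : ℤ => h % (p : ℤ)) = ((range p).filter (fun n : ℕ => (p : ℤ) ∣ GH H n)).image (fun n : ℕ => (n : ℤ)) := by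
    ext x
    simp only [mem_image, mem_filter, mem_range]
    constructor
    · rintro ⟨h, hh, rfl⟩
      have h0 := Int.emod_nonneg h hp0.ne'
      have h1 := Int.emod_lt_of_pos h hp0
      refine ⟨(h % (p : ℤ)).toNat, ⟨by omega, ?_⟩, Int.toNat_of_nonneg h0⟩
      rw [dvd_GH H hp]
      refine ⟨h, hh, ?_⟩
      rw [Int.toNat_of_nonneg h0]
      exact ⟨-(h / p), by have := Int.emod_add_mul_ediv h p; linarith⟩
    · rintro ⟨m, ⟨hm, hd⟩, rfl⟩
      rw [dvd_GH H hp] at hd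
      obtain ⟨h, hh, hd⟩ := hd
      refine ⟨h, hh, ?_⟩
      rw [dvd_sub_iff hp.pos] at hd
      rw [← hd, Nat.mod_eq_of_lt hm]
  rw [e, card_image_of_injective _ Nat.cast_injective]

theorem NF_GH (H : Finset ℤ) (h : ∀ p : ℕ, p.Prime → nu H p < p) : NF (GH H) := by
  classical
  intro p hp
  by_contra hcon
  push Not at hcon
  have h1 := h p hp
  rw [← om_GH H hp] at h1
  unfold om at h1
  rw [filter_true_of_mem (fun n _ => hcon n), card_range] at h1
  omega

/-- a value prime to `p` shows that not all classes are occupied -/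
theorem nu_lt_of (H : Finset ℤ) {p : ℕ} (hp : p.Prime) {m : ℕ} (hm : ∀ h ∈ H, ¬ (p : ℤ) ∣ (m : ℤ) - h) : nu H p < p := by
  classical
  rw [← om_GH H hp]
  unfold om
  have h1 : (range p).filter (fun n : ℕ => (p : ℤ) ∣ GH H n) ⊂ range p := by
    rw [ssubset_iff_subset_ne]
    refine ⟨filter_subset _ _, fun h2 => ?_⟩
    have h3 : m % p ∈ range p := mem_range.2 (Nat.mod_lt _ hp.pos)
    rw [← h2, mem_filter, dvd_GH H hp] at h3
    obtain ⟨-, h, hh, hd⟩ := h3
    apply hm h hh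
    rw [dvd_sub_iff hp.pos] at hd ⊢
    rw [← hd, Nat.mod_mod]
  have := card_lt_card h1
  rw [card_range] at this
  exact this

theorem WG_GH (H : Finset ℤ) (x : ℕ) : WG (GH H) x = ∏ p ∈ (Icc 1 x).filter Nat.Prime, (1 - (nu H p : ℝ) / p) := by
  rw [WG_om]
  apply prod_congr rfl
  intro p hp
  rw [om_GH H (mem_filter.1 hp).2]

end Pool.Agent.K1H73.RDW
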