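import Pool.Agent.K1H73.RDW.Vc

/-!
# A suitable lowest digit; the final form for windows
-/

set_option autoImplicit false

namespace Pool.Agent.K1H73.RDW

open Finset Filter Polynomial
open Pool.Agent.Y816.PD

/-- a digit at which the value is prime to the base -/
theorem exists_digit {k : ℕ} {G : ℕ → ℤ} (hG : PF k G) (hn : NF G) {b : ℕ} (hb : 0 < b) :
    ∃ d < b, (G d).natAbs.Coprime b := by
  classical
  obtain ⟨a, ha⟩ : ∃ a : ℕ → ℕ, ∀ p : ℕ, p.Prime → ¬ (p : ℤ) ∣ G (a p) := by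
    choose! a ha using hn
    exact ⟨a, ha⟩
  obtain ⟨x, hx⟩ := Nat.chineseRemainderOfFinset a id b.primeFactors
    (fun p hp => (Nat.prime_of_mem_primeFactors hp).ne_zero)
    (fun p hp q hq hpq => (Nat.coprime_primes (Nat.prime_of_mem_primeFactors hp) (Nat.prime_of_mem_primeFactors hq)).2 hpq)
  refine ⟨x % b, Nat.mod_lt _ hb, ?_⟩
  rw [Nat.coprime_iff_gcd_eq_one]
  by_contra hg
  obtain ⟨q, hq, hqd⟩ := Nat.exists_prime_and_dvd hg
  have h1 : q ∣ b := hqd.trans (Nat.gcd_dvd_right _ _)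
  have h2 : (q : ℤ) ∣ G (x % b) := Int.natCast_dvd.2 (hqd.trans (Nat.gcd_dvd_left _ _))
  apply ha q hq
  refine (hG.dvd_iff ?_).1 h2
  have h3 : x ≡ a q [MOD q] := hx q (Nat.mem_primeFactors.2 ⟨hq, h1, by omega⟩)
  have h4 : x % b ≡ x [MOD q] := (Nat.mod_modEq x b).of_dvd h1
  have h5 : a q ≡ x % b [MOD q] := (h4.trans h3).symm
  exact (Nat.modEq_iff_dvd).1 h5

/-- the window version with `K` the integer part of `log_b (L / 3)` -/
theorem win_log (κ0 E : ℕ) (hκ0 : 1 ≤ κ0) :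
    ∃ c : ℝ, 0 < c ∧ ∃ r0 : ℕ, 2 ≤ r0 ∧ ∀ r : ℕ, r0 ≤ r → ∀ b : ℕ, 2 ≤ b → ∃ κ C : ℝ, 0 < κ ∧ 0 < C ∧
      ∀ᶠ L : ℕ in atTop, ∀ K : ℕ, K = Nat.log b (L / 3) → 1 ≤ K ∧ L < b ^ (4 * K) ∧ ∀ G : ℕ → ℤ, PF κ0 G → NF G →
        ∀ B : ℕ, (∀ n : ℕ, n < B + 2 * L → (G n).natAbs ≤ L ^ E) →
        ∀ A : ℕ → Finset ℕ, (∀ i < K, A i ⊆ range b) → (b : ℝ) ^ K ≤ Real.exp (c * K) * NA K A →
        ((∃ d ∈ A 0, (G d).natAbs.Coprime b) →
          κ * NA K A * WG G (b ^ K) ≤ IC b K A B (B + L + 1) (Alm G r (b ^ K))) ∧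
        (IC b K A B (B + L + 1) {m | ∀ p : ℕ, p.Prime → (p : ℤ) ∣ G m → b ^ K ≤ p ^ r} : ℝ) ≤
          C * NA K A * WG G (b ^ K) := by
  obtain ⟨c, hc, r0, hr0, h⟩ := win κ0 (4 * E) hκ0
  refine ⟨c, hc, r0, hr0, fun r hr b hb => ?_⟩
  obtain ⟨κ, C, hκ, hC, h1⟩ := h r hr b hb (3 * b + 1)
  refine ⟨κ, C, hκ, hC, ?_⟩
  obtain ⟨K0, hK0⟩ := eventually_atTop.1 h1
  filter_upwards [eventually_ge_atTop (3 * b ^ (K0 + 6))] with L hL K hK
  have hb0 : 0 < b := by omega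
  obtain ⟨hKK, hb1, hb2⟩ := log_three hb (K0 + 6) hL hK
  have hbK : 1 ≤ b ^ K := Nat.one_le_pow _ _ hb0
  have e1 : L < b ^ (4 * K) := by
    calc L ≤ 3 * b * b ^ K := hb2
      _ < b ^ 2 * b * b ^ K := by
          apply Nat.mul_lt_mul_of_pos_right _ (by omega)
          apply Nat.mul_lt_mul_of_pos_right _ hb0
          nlinarith
      _ = b ^ (K + 3) := by ring
      _ ≤ b ^ (4 * K) := Nat.pow_le_pow_right hb0 (by omega)
  refine ⟨by omega, e1, fun G hG hn B hsize A hA hprod => ?_⟩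
  have h2 := hK0 K (by omega) G hG hn B (L + 1) (by omega) (by
    have : (3 * b + 1) * b ^ K = 3 * b * b ^ K + b ^ K := by ring
    omega) (fun n hnn => by
    refine (hsize n (by omega)).trans ?_
    calc L ^ E ≤ (b ^ (4 * K)) ^ E := Nat.pow_le_pow_left e1.le E
      _ = b ^ (4 * E * K) := by rw [← pow_mul]; congr 1; ring) A hA hprod
  exact h2

end Pool.Agent.K1H73.RDW
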