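import Pool.Agent.K1H73.RDW.Dig
import Pool.Agent.Y816.PD.UniJ

/-!
# Restricted digits in windows: the final form
-/

set_option autoImplicit false

namespace Pool.Agent.K1H73.RDW

open Finset Filter Polynomial
open Pool.Agent.Y816.PD

theorem small_fac (k : ℕ) {v : ℝ} (hv : 0 < v) {b : ℕ} (hb : 2 ≤ b) : ∀ᶠ K : ℕ in atTop, ∀ N : ℝ,
    (b : ℝ) ^ K ≤ Real.exp (1 / 4 * K) * N → ((4 * (Nat.sqrt (b ^ K) + 4) : ℕ) : ℝ) ≤ N * (v / (K : ℝ) ^ k) := by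
  have hb2 : (2 : ℝ) ≤ b := by exact_mod_cast hb
  have hb0 : (0 : ℝ) < b := by linarith
  have h1 : Tendsto (fun x : ℝ => x ^ k * Real.exp (-x)) atTop (nhds 0) :=
    Real.tendsto_pow_mul_exp_neg_atTop_nhds_zero k
  have h2 : Tendsto (fun K : ℕ => (9 / 100 : ℝ) * K) atTop atTop :=
    Tendsto.const_mul_atTop (by norm_num) tendsto_natCast_atTop_atTop
  have h3 := (h1.comp h2).eventually (gt_mem_nhds (show (0 : ℝ) < v * (9 / 100) ^ k / 20 by positivity))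
  filter_upwards [h3, eventually_ge_atTop 1] with K hK hK1 N hN
  have hK0 : (0 : ℝ) < K := by exact_mod_cast (by omega : 0 < K)
  simp only [Function.comp] at hK
  have h4 : 20 * (K : ℝ) ^ k ≤ v * Real.exp (9 / 100 * K) := by
    rw [Real.exp_neg, ← div_eq_mul_inv, div_lt_iff₀ (Real.exp_pos _)] at hK
    rw [mul_pow] at hK
    have h5 : (0 : ℝ) < (9 / 100 : ℝ) ^ k := by positivity
    have h6 : (9 / 100 : ℝ) ^ k * (20 * (K : ℝ) ^ k) ≤ (9 / 100 : ℝ) ^ k * (v * Real.exp (9 / 100 * K)) := by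
      calc (9 / 100 : ℝ) ^ k * (20 * (K : ℝ) ^ k) = 20 * ((9 / 100 : ℝ) ^ k * (K : ℝ) ^ k) := by ring
        _ ≤ 20 * (v * (9 / 100) ^ k / 20 * Real.exp (9 / 100 * K)) := mul_le_mul_of_nonneg_left hK.le (by norm_num)
        _ = _ := by ring
    exact le_of_mul_le_mul_left h6 h5
  -- the square root
  obtain ⟨s, hs⟩ : ∃ s : ℝ, s = Real.exp (Real.log b * K / 2) := ⟨_, rfl⟩
  have hss : s ^ 2 = (b : ℝ) ^ K := by
    rw [hs, ← Real.exp_nat_mul, ← Real.exp_log hb0, ← Real.exp_nat_mul]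
    congr 1
    rw [Real.log_exp]
    push_cast
    ring
  have hlb : Real.log 2 ≤ Real.log b := Real.log_le_log (by norm_num) hb2
  have h2d := Real.log_two_gt_d9
  have hs1 : 1 ≤ s := by
    rw [hs, Real.one_le_exp_iff]
    have : 0 ≤ Real.log b := by linarith
    positivity
  have hsq : ((Nat.sqrt (b ^ K) : ℕ) : ℝ) ≤ s := by
    have h5 : ((Nat.sqrt (b ^ K) : ℕ) : ℝ) ^ 2 ≤ s ^ 2 := by
      rw [hss]
      have := Nat.sqrt_le' (b ^ K)
      exact_mod_cast this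
    exact le_of_sq_le_sq h5 (by linarith)
  have h6 : s * Real.exp (9 / 100 * K) ≤ N := by
    have h7 : s * Real.exp (9 / 100 * K) * Real.exp (1 / 4 * K) ≤ (b : ℝ) ^ K := by
      rw [← hss, sq, mul_assoc]
      apply mul_le_mul_of_nonneg_left _ (by linarith)
      rw [hs, ← Real.exp_add]
      apply Real.exp_le_exp.2
      nlinarith
    have h8 : s * Real.exp (9 / 100 * K) * Real.exp (1 / 4 * K) ≤ N * Real.exp (1 / 4 * K) := by
      rw [mul_comm N]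
      exact h7.trans hN
    exact le_of_mul_le_mul_right h8 (Real.exp_pos _)
  push_cast
  rw [← mul_div_assoc, le_div_iff₀ (by positivity)]
  calc 4 * ((Nat.sqrt (b ^ K) : ℝ) + 4) * (K : ℝ) ^ k ≤ 4 * (s + 4 * s) * (K : ℝ) ^ k := by
        apply mul_le_mul_of_nonneg_right _ (by positivity)
        linarith
    _ = s * (20 * (K : ℝ) ^ k) := by ring
    _ ≤ s * (v * Real.exp (9 / 100 * K)) := mul_le_mul_of_nonneg_left h4 (by linarith)
    _ = s * Real.exp (9 / 100 * K) * v := by ring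
    _ ≤ N * v := mul_le_mul_of_nonneg_right h6 hv.le

theorem DC_union {b K : ℕ} {A : ℕ → Finset ℕ} {u v : ℕ} {T S U : Set ℕ} (hS : S.Finite)
    (h : ∀ m ∈ T, (u < m ∧ m < v) ∧ (m ∈ S ∨ m ∈ U)) : DC b K A T ≤ IC b K A u v U + S.ncard := by
  classical
  unfold IC DC
  rw [← Set.ncard_coe_finset]
  refine le_trans (Set.ncard_le_ncard (t := _ ∪ S) ?_ ?_) (Set.ncard_union_le _ _)
  · rintro m ⟨hm, hd⟩
    obtain ⟨h1, h2⟩ := h m hm
    rcases h2 with h2 | h2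
    · exact Or.inr h2
    · left
      rw [mem_coe, mem_filter, mem_Ioo]
      exact ⟨h1, hd, h2⟩
  · exact (finite_toSet _).union hS

/-- **Restricted digits in windows, for all polynomial functions of bounded degree.** -/
theorem main (κ0 E : ℕ) (hκ0 : 1 ≤ κ0) :
    ∃ c : ℝ, 0 < c ∧ ∃ r0 : ℕ, 2 ≤ r0 ∧ ∀ r : ℕ, r0 ≤ r → ∀ b : ℕ, 2 ≤ b → ∃ κ C : ℝ, 0 < κ ∧ 0 < C ∧
      ∀ᶠ L : ℕ in atTop, ∀ K : ℕ, K = Nat.log b (L / 3) → 1 ≤ K ∧ b ^ K ≤ L ∧ L < b ^ (4 * K) ∧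
        ∀ G : ℕ → ℤ, PF κ0 G → NF G → ∀ B : ℕ, (∀ n : ℕ, n < B + 2 * L → (G n).natAbs ≤ L ^ E) →
        ∀ A : ℕ → Finset ℕ, (∀ i < K, A i ⊆ range b) → (b : ℝ) ^ K ≤ Real.exp (c * K) * NA K A →
        (∀ T : Set ℕ, T.Finite → (∀ m, B < m → m ≤ B + L → m ∈ Alm G r (b ^ K) → m ∈ T) →
          (∃ d ∈ A 0, (G d).natAbs.Coprime b) → κ * NA K A * WG G (b ^ K) ≤ DC b K A T) ∧
        (∀ T S : Set ℕ, S.Finite → S.ncard ≤ 4 * (Nat.sqrt (b ^ K) + 4) →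
          (∀ m ∈ T, (B < m ∧ m ≤ B + L) ∧ (m ∈ S ∨ ∀ p : ℕ, p.Prime → (p : ℤ) ∣ G m → b ^ K ≤ p ^ r)) →
          (DC b K A T : ℝ) ≤ C * NA K A * WG G (b ^ K)) := by
  obtain ⟨c, hc, r0, hr0, h⟩ := win_log κ0 E hκ0
  obtain ⟨v, hv, hW⟩ := WG_low κ0
  refine ⟨min c (1 / 4), by positivity, r0, hr0, fun r hr b hb => ?_⟩
  obtain ⟨κ, C, hκ, hC, h1⟩ := h r hr b hb
  refine ⟨κ, C + 1, hκ, by positivity, ?_⟩
  have hb1 : (1 : ℝ) < b := by exact_mod_cast (by omega : 1 < b)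
  have hlb : 0 < Real.log b := Real.log_pos hb1
  obtain ⟨K1, hK1⟩ := eventually_atTop.1 (small_fac κ0 (v := v / Real.log b ^ κ0) (by positivity) hb)
  filter_upwards [h1, eventually_ge_atTop (3 * b ^ (K1 + 1))] with L hL hL2 K hK
  obtain ⟨hKK, hb3, hb4⟩ := log_three hb (K1 + 1) hL2 hK
  obtain ⟨e1, e2, e3⟩ := hL K hK
  refine ⟨e1, by omega, e2, fun G hG hn B hsize A hA hprod => ?_⟩
  have hNA := NA_nonneg K A
  have hpr : ∀ u : ℝ, min c (1 / 4) ≤ u → (b : ℝ) ^ K ≤ Real.exp (u * K) * NA K A := by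
    intro u hu
    refine hprod.trans (mul_le_mul_of_nonneg_right ?_ hNA)
    apply Real.exp_le_exp.2
    exact mul_le_mul_of_nonneg_right hu (Nat.cast_nonneg _)
  obtain ⟨h2, h3⟩ := e3 G hG hn B hsize A hA (hpr c (min_le_left _ _))
  constructor
  · intro T hT hTA hd
    refine (h2 hd).trans (Nat.cast_le.2 ?_)
    exact IC_le_DC hT fun m hm1 hm2 hm3 => hTA m hm1 (by omega) hm3
  · intro T S hS hSc hTS
    have h4 : DC b K A T ≤ IC b K A B (B + L + 1) {m | ∀ p : ℕ, p.Prime → (p : ℤ) ∣ G m → b ^ K ≤ p ^ r} + S.ncard :=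
      DC_union hS fun m hm => by
        obtain ⟨⟨h5, h6⟩, h7⟩ := hTS m hm
        exact ⟨⟨h5, by omega⟩, h7⟩
    have h5 : (S.ncard : ℝ) ≤ NA K A * WG G (b ^ K) := by
      have h6 := hK1 K (by omega) (NA K A) (hpr _ (min_le_right _ _))
      have h7 : v / Real.log b ^ κ0 / (K : ℝ) ^ κ0 ≤ WG G (b ^ K) := by
        have hbK : 2 ≤ b ^ K := by
          calc 2 ≤ b := hb
            _ = b ^ 1 := (pow_one b).symm
            _ ≤ b ^ K := Nat.pow_le_pow_right (by omega) e1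
        have h8 := hW (b ^ K) hbK G hG hn
        refine le_trans (le_of_eq ?_) h8
        rw [Nat.cast_pow, Real.log_pow, mul_pow, div_div, mul_comm]
      calc (S.ncard : ℝ) ≤ ((4 * (Nat.sqrt (b ^ K) + 4) : ℕ) : ℝ) := by exact_mod_cast hSc
        _ ≤ NA K A * (v / Real.log b ^ κ0 / (K : ℝ) ^ κ0) := h6
        _ ≤ _ := mul_le_mul_of_nonneg_left h7 hNA
    calc (DC b K A T : ℝ) ≤ ((IC b K A B (B + L + 1) {m | ∀ p : ℕ, p.Prime → (p : ℤ) ∣ G m → b ^ K ≤ p ^ r} +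
          S.ncard : ℕ) : ℝ) := Nat.cast_le.2 h4
      _ = (IC b K A B (B + L + 1) {m | ∀ p : ℕ, p.Prime → (p : ℤ) ∣ G m → b ^ K ≤ p ^ r} : ℝ) + S.ncard := by
          push_cast
          ring
      _ ≤ C * NA K A * WG G (b ^ K) + NA K A * WG G (b ^ K) := add_le_add h3 h5
      _ = _ := by ring

end Pool.Agent.K1H73.RDW
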