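import Pool.Agent.K1H73.RDW.Sysm

/-!
# Restricted digits in windows: fixed systems of linear forms
-/

set_option autoImplicit false

namespace Pool.Agent.K1H73.RDW

open Finset Filter Polynomial
open Pool.Agent.Y816.PD
open Pool.Agent.TH977.PW (sys_lin)
open Pool.Agent.W182.PW (lin lin_eval)

variable {ι : Type} [Fintype ι]

/-- a nonzero integer which is up to its sign a product of at most `r` primes, all with `z < q ^ r` -/
def Alz (r z : ℕ) (v : ℤ) : Prop :=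
  v ≠ 0 ∧ v.natAbs.primeFactorsList.length ≤ r ∧ ∀ q : ℕ, q.Prime → (q : ℤ) ∣ v → z < q ^ r

/-- **Linear forms.** -/
theorem mainL (a : ι → ℕ) (e : ι → ℤ) (ha : ∀ i, 0 < a i)
    (hab : ∀ i, IsCoprime (a i : ℤ) (e i)) (hinj : ∀ i j, a i = a j → e i = e j → i = j)
    (hadm : ∀ p : ℕ, p.Prime → ∃ m : ℕ, ∀ i, ¬ (p : ℤ) ∣ (a i : ℤ) * m + e i)
    (k : ℕ) (hk : Fintype.card ι = k) (hk1 : 1 ≤ k) (E : ℕ) :
    ∃ c : ℝ, 0 < c ∧ ∃ r0 : ℕ, 2 ≤ r0 ∧ ∀ r : ℕ, r0 ≤ r → ∀ b : ℕ, 2 ≤ b → ∃ κ C : ℝ, 0 < κ ∧ 0 < C ∧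
      ∀ᶠ L : ℕ in atTop, ∀ K : ℕ, K = Nat.log b (L / 3) → 2 * r ≤ K ∧ b ^ K ≤ L ∧ L < b ^ (4 * K) ∧
        ∀ B : ℕ, B ≤ L ^ E →
        ∀ A : ℕ → Finset ℕ, (∀ i < K, A i ⊆ range b) → (b : ℝ) ^ K ≤ Real.exp (c * K) * NA K A →
        ((∃ d ∈ A 0, ∀ i, IsCoprime ((a i : ℤ) * d + e i) (b : ℤ)) → κ * NA K A / (K : ℝ) ^ k ≤
          DC b K A {m | (B < m ∧ m ≤ B + L) ∧ ∀ i, Alz r (b ^ K) ((a i : ℤ) * m + e i)}) ∧
        (DC b K A {m | (B < m ∧ m ≤ B + L) ∧ ∀ i, ((a i : ℤ) * m + e i).natAbs.Prime} : ℝ) ≤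
          C * NA K A / (K : ℝ) ^ k := by
  classical
  obtain ⟨c, hc, r0, hr0, h⟩ := mainS (fun i => lin (a i) (e i)) (sys_lin a e ha hab hinj hadm) k hk hk1 E
  refine ⟨c, hc, r0, hr0, fun r hr b hb => ?_⟩
  have h2r : 2 ≤ r := hr0.trans hr
  obtain ⟨κ, C, hκ, hC, h1⟩ := h r hr b hb
  refine ⟨κ, C, hκ, hC, ?_⟩
  obtain ⟨M, hM⟩ : ∃ M, M = ∑ i, (e i).natAbs := ⟨_, rfl⟩
  have hMi : ∀ i, (e i).natAbs ≤ M := fun i => by
    rw [hM]
    exact single_le_sum (f := fun i => (e i).natAbs) (fun _ _ => Nat.zero_le _) (mem_univ i)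
  filter_upwards [h1, eventually_ge_atTop (3 * b ^ (2 * M + 3))] with L hL hL2 K hK
  obtain ⟨hKK, hb3, hb4⟩ := log_three hb (2 * M + 3) hL2 hK
  obtain ⟨e1, e2, e3, e4⟩ := hL K hK
  refine ⟨e1, e2, e3, fun B hB A hA hprod => ?_⟩
  obtain ⟨h2, h3⟩ := e4 B hB A hA hprod
  simp only [lin_eval] at h2 h3
  constructor
  · intro hd
    refine h2 _ ((finite_toSet (Ioc B (B + L))).subset fun m hm => by
      rw [mem_coe, mem_Ioc]; exact hm.1) ?_ hd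
    intro m hm1 hm2 hm3
    exact ⟨⟨hm1, hm2⟩, hm3⟩
  · obtain ⟨z, hz⟩ : ∃ z, z = Nat.sqrt (b ^ K) := ⟨_, rfl⟩
    have hzM : M ≤ z := by
      rw [hz, Nat.le_sqrt, ← sq]
      calc M ^ 2 ≤ (2 ^ M) ^ 2 := Nat.pow_le_pow_left (Nat.lt_two_pow_self).le 2
        _ = 2 ^ (2 * M) := by rw [← pow_mul]; congr 1; ring
        _ ≤ b ^ (2 * M) := Nat.pow_le_pow_left hb _
        _ ≤ b ^ K := Nat.pow_le_pow_right (by omega) (by omega)
    refine h3 _ ((range (z + M + 1) : Finset ℕ) : Set ℕ) (finite_toSet _) (by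
      rw [Set.ncard_coe_finset, card_range]
      omega) ?_
    rintro m ⟨hm, hp⟩
    refine ⟨hm, ?_⟩
    rcases Nat.lt_or_ge m (z + M + 1) with h4 | h4
    · left
      rw [mem_coe, mem_range]
      exact h4
    · right
      intro i q hq hd
      have h6 := (Nat.prime_dvd_prime_iff_eq hq (hp i)).1 (Int.natCast_dvd.1 hd)
      have h7 : z + 1 ≤ q := by
        have h8 := hMi i
        have h9 : m ≤ a i * m := Nat.le_mul_of_pos_left m (ha i)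
        have h10 : (m : ℤ) ≤ (a i : ℤ) * m := by exact_mod_cast h9
        omega
      calc b ^ K ≤ (z + 1) ^ 2 := by
            rw [hz, sq]
            exact (Nat.lt_succ_sqrt _).le
        _ ≤ q ^ 2 := Nat.pow_le_pow_left h7 2
        _ ≤ q ^ r := Nat.pow_le_pow_right hq.pos h2r

end Pool.Agent.K1H73.RDW
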