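import Pool.Agent.K1H73.RDW.Fin

/-!
# Restricted digits in windows: fixed systems of irreducible polynomials
-/

set_option autoImplicit false

namespace Pool.Agent.K1H73.RDW

open Finset Filter Polynomial
open Pool.Agent.Y816.PD
open Pool.Agent.W123.RP Pool.Agent.W123.RU.Poly Pool.Agent.W182.PW Pool.Agent.H373R2.T7

variable {ι : Type} [Fintype ι]

/-- the product of the values -/
noncomputable def GS (f : ι → ℤ[X]) (m : ℕ) : ℤ := ∏ i, (f i).eval (m : ℤ)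

theorem PF_GS (f : ι → ℤ[X]) : PF (∏ i, f i).natDegree (GS f) := by
  refine ⟨∏ i, f i, le_rfl, fun n => ?_⟩
  unfold GS
  rw [eval_prod]

theorem dvd_GS (f : ι → ℤ[X]) {p : ℕ} (hp : p.Prime) (m : ℕ) : (p : ℤ) ∣ GS f m ↔ ∃ i, (p : ℤ) ∣ (f i).eval (m : ℤ) := by
  unfold GS
  rw [(Nat.prime_iff_prime_int.1 hp).dvd_finsetProd_iff]
  simp

theorem NF_GS {f : ι → ℤ[X]} (hf : Sys f) : NF (GS f) := by
  intro p hp
  obtain ⟨m, hm⟩ := hf.adm p hp
  refine ⟨m, fun h => ?_⟩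
  rw [dvd_GS f hp] at h
  obtain ⟨i, hi⟩ := h
  exact hm i hi

theorem WG_GS (f : ι → ℤ[X]) (x : ℕ) : WG (GS f) x = Vq (Q f) x := by
  classical
  rw [WG_om]
  unfold Vq pz
  apply prod_congr rfl
  intro p hp
  rw [mem_filter] at hp
  have h1 : om (GS f) p = nuB (Q f) p := by
    unfold om nuB
    congr 1
    ext n
    simp only [mem_filter, Q, dvd_GS f hp.2]
  rw [h1]

/-- **Restricted digits in windows for systems of polynomials.** -/
theorem mainS (f : ι → ℤ[X]) (hf : Sys f) (k : ℕ) (hk : Fintype.card ι = k) (hk1 : 1 ≤ k) (E : ℕ) :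
    ∃ c : ℝ, 0 < c ∧ ∃ r0 : ℕ, 2 ≤ r0 ∧ ∀ r : ℕ, r0 ≤ r → ∀ b : ℕ, 2 ≤ b → ∃ κ C : ℝ, 0 < κ ∧ 0 < C ∧
      ∀ᶠ L : ℕ in atTop, ∀ K : ℕ, K = Nat.log b (L / 3) → 2 * r ≤ K ∧ b ^ K ≤ L ∧ L < b ^ (4 * K) ∧
        ∀ B : ℕ, B ≤ L ^ E →
        ∀ A : ℕ → Finset ℕ, (∀ i < K, A i ⊆ range b) → (b : ℝ) ^ K ≤ Real.exp (c * K) * NA K A →
        (∀ T : Set ℕ, T.Finite → (∀ m, B < m → m ≤ B + L → (∀ i, (f i).eval (m : ℤ) ≠ 0 ∧
            ((f i).eval (m : ℤ)).natAbs.primeFactorsList.length ≤ r ∧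
            ∀ p : ℕ, p.Prime → (p : ℤ) ∣ (f i).eval (m : ℤ) → b ^ K < p ^ r) → m ∈ T) →
          (∃ d ∈ A 0, ∀ i, IsCoprime ((f i).eval (d : ℤ)) (b : ℤ)) → κ * NA K A / (K : ℝ) ^ k ≤ DC b K A T) ∧
        (∀ T S : Set ℕ, S.Finite → S.ncard ≤ 4 * (Nat.sqrt (b ^ K) + 4) →
          (∀ m ∈ T, (B < m ∧ m ≤ B + L) ∧ (m ∈ S ∨ ∀ i, ∀ p : ℕ, p.Prime → (p : ℤ) ∣ (f i).eval (m : ℤ) →
            b ^ K ≤ p ^ r)) →
          (DC b K A T : ℝ) ≤ C * NA K A / (K : ℝ) ^ k) := by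
  classical
  have hι : Nonempty ι := Fintype.card_pos_iff.1 (by omega)
  have hd0 : 1 ≤ (∏ i, f i).natDegree := by
    obtain ⟨i⟩ := hι
    have hne : ∏ j, f j ≠ 0 := prod_ne_zero_iff.2 fun j _ => (hf.irr j).ne_zero
    exact (hf.deg i).trans_le (natDegree_le_of_dvd (dvd_prod_of_mem _ (mem_univ i)) hne)
  obtain ⟨B0, D0, hBD⟩ := bound_all (fun _ : Unit => ∏ i, f i)
  obtain ⟨c, hc, r0, hr0, h⟩ := main (∏ i, f i).natDegree ((E + 3) * D0 + 1) hd0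
  refine ⟨c, hc, r0, hr0, fun r hr b hb => ?_⟩
  obtain ⟨κ, C, hκ, hC, h1⟩ := h r hr b hb
  obtain ⟨v, Cv, hv, hCv, hV⟩ := V_bounds f hf
  rw [hk] at hV
  have hb1 : (1 : ℝ) < b := by exact_mod_cast (by omega : 1 < b)
  have hlb : 0 < Real.log b := Real.log_pos hb1
  refine ⟨κ * (v / Real.log b ^ k), C * (Cv / Real.log b ^ k), by positivity, by positivity, ?_⟩
  filter_upwards [h1, eventually_ge_atTop (3 * b ^ (2 * r + 3)), eventually_ge_atTop (B0 + 3)] with L hL hL2 hL3 K hK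
  obtain ⟨hKK, hb3, hb4⟩ := log_three hb (2 * r + 3) hL2 hK
  obtain ⟨e1, e2, e3, e4⟩ := hL K hK
  refine ⟨by omega, e2, e3, fun B hB A hA hprod => ?_⟩
  have hNA := NA_nonneg K A
  have hK0 : (0 : ℝ) < K := by exact_mod_cast e1
  have hsize : ∀ m : ℕ, m < B + 2 * L → (GS f m).natAbs ≤ L ^ ((E + 3) * D0 + 1) := by
    intro m hm
    have h2 := hBD () m
    rw [eval_prod] at h2
    have h3 : ((GS f m).natAbs : ℝ) ≤ B0 * (1 + (m : ℝ)) ^ D0 := by
      rw [Nat.cast_natAbs, Int.cast_abs]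
      exact h2
    have h4 : (GS f m).natAbs ≤ B0 * (1 + m) ^ D0 := by exact_mod_cast h3
    have h5 : 1 + m ≤ L ^ (E + 3) := by
      have h6 : L ≤ L ^ (E + 1) := Nat.le_self_pow (by omega) L
      have h7 : L ^ E ≤ L ^ (E + 1) := Nat.pow_le_pow_right (by omega) (by omega)
      calc 1 + m ≤ L ^ E + 2 * L := by omega
        _ ≤ 3 * L ^ (E + 1) := by omega
        _ ≤ L ^ 2 * L ^ (E + 1) := by
            apply Nat.mul_le_mul_right
            nlinarith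
        _ = L ^ (E + 3) := by rw [← pow_add]; congr 1; ring
    calc (GS f m).natAbs ≤ B0 * (1 + m) ^ D0 := h4
      _ ≤ L * (L ^ (E + 3)) ^ D0 := Nat.mul_le_mul (by omega) (Nat.pow_le_pow_left h5 _)
      _ = L ^ ((E + 3) * D0 + 1) := by rw [← pow_mul]; ring
  obtain ⟨h5, h6⟩ := e4 (GS f) (PF_GS f) (NF_GS hf) B hsize A hA hprod
  have hbK3 : 3 ≤ b ^ K := by
    calc 3 ≤ 2 ^ 3 := by norm_num
      _ ≤ 2 ^ K := Nat.pow_le_pow_right (by norm_num) (by omega)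
      _ ≤ b ^ K := Nat.pow_le_pow_left hb K
  obtain ⟨hV1, hV2⟩ := hV (b ^ K) hbK3
  rw [← WG_GS, Nat.cast_pow, Real.log_pow, mul_pow] at hV1 hV2
  have e5 : ∀ x : ℝ, x / ((K : ℝ) ^ k * Real.log b ^ k) = x / Real.log b ^ k / (K : ℝ) ^ k := by
    intro x
    rw [div_div, mul_comm]
  rw [e5] at hV1 hV2
  constructor
  · intro T hT hTA hd
    have h7 := h5 T hT (fun m hm1 hm2 hm3 => hTA m hm1 hm2 fun i => by
      obtain ⟨hm4, hm5⟩ := hm3
      have hne : GS f m ≠ 0 := by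
        intro h0
        have h8 := hm4 2 Nat.prime_two (by rw [h0]; exact dvd_zero _)
        have h9 : 2 ^ r ≤ 2 ^ K := Nat.pow_le_pow_right (by norm_num) (by omega)
        have h10 : 2 ^ K ≤ b ^ K := Nat.pow_le_pow_left hb K
        omega
      have hdv : (f i).eval (m : ℤ) ∣ GS f m := dvd_prod_of_mem (fun i => (f i).eval (m : ℤ)) (mem_univ i)
      refine ⟨fun h0 => hne (by rw [h0] at hdv; exact zero_dvd_iff.1 hdv), ?_, fun p hp hd => hm4 p hp (hd.trans hdv)⟩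
      exact (Nat.primeFactorsList_sublist_of_dvd (Int.natAbs_dvd_natAbs.2 hdv) (Int.natAbs_ne_zero.2 hne)).length_le.trans hm5)
      (by
        obtain ⟨d, hd, hd2⟩ := hd
        refine ⟨d, hd, ?_⟩
        rw [cop_iff]
        exact IsCoprime.prod_left fun i _ => hd2 i)
    refine le_trans ?_ h7
    calc κ * (v / Real.log b ^ k) * NA K A / (K : ℝ) ^ k = κ * NA K A * (v / Real.log b ^ k / (K : ℝ) ^ k) := by ring
      _ ≤ _ := mul_le_mul_of_nonneg_left hV1 (by positivity)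
  · intro T S hS hSc hTS
    have h7 := h6 T S hS hSc (fun m hm => by
      obtain ⟨h8, h9⟩ := hTS m hm
      refine ⟨h8, ?_⟩
      rcases h9 with h9 | h9
      · exact Or.inl h9
      · right
        intro p hp hd
        rw [dvd_GS f hp] at hd
        obtain ⟨i, hi⟩ := hd
        exact h9 i p hp hi)
    refine h7.trans ?_
    calc C * NA K A * WG (GS f) (b ^ K) ≤ C * NA K A * (Cv / Real.log b ^ k / (K : ℝ) ^ k) :=
          mul_le_mul_of_nonneg_left hV2 (by positivity)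
      _ = _ := by ring

end Pool.Agent.K1H73.RDW
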