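import Pool.Agent.K1H73.RDW.Win
import Pool.Agent.Helper923.HMertens

/-!
# Comparison of the sieve products up to two bounds
-/

set_option autoImplicit false

namespace Pool.Agent.K1H73.RDW

open Finset Filter Polynomial
open Pool.Agent.Y816.PD

/-- no prime divides all values -/
def NF (G : ℕ → ℤ) : Prop := ∀ p : ℕ, p.Prime → ∃ n : ℕ, ¬ (p : ℤ) ∣ G n

open Classical in
/-- the number of the zeros modulo `p` -/
noncomputable def om (G : ℕ → ℤ) (p : ℕ) : ℕ := ((range p).filter (fun n : ℕ => (p : ℤ) ∣ G n)).card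

theorem WG_om (G : ℕ → ℤ) (x : ℕ) : WG G x = ∏ p ∈ (Icc 1 x).filter Nat.Prime, (1 - (om G p : ℝ) / p) := rfl

theorem om_le {k : ℕ} {G : ℕ → ℤ} (h : PF k G) (hn : NF G) {p : ℕ} (hp : p.Prime) : om G p ≤ k := by
  classical
  obtain ⟨P, hP, hG⟩ := h
  obtain ⟨n, hn⟩ := hn p hp
  have h1 := count_le P hp ⟨n, by rw [hG]; exact hn⟩
  refine le_trans (le_of_eq ?_) (h1.trans hP)
  unfold om Pool.Agent.H373R2.T7.nuB
  congr 1
  ext m
  simp only [mem_filter, hG]

theorem om_lt {k : ℕ} {G : ℕ → ℤ} (h : PF k G) (hn : NF G) {p : ℕ} (hp : p.Prime) : om G p < p := by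
  classical
  obtain ⟨n, hn⟩ := hn p hp
  unfold om
  have h1 : (range p).filter (fun n : ℕ => (p : ℤ) ∣ G n) ⊂ range p := by
    rw [ssubset_iff_subset_ne]
    refine ⟨filter_subset _ _, fun h2 => ?_⟩
    have h3 : n % p ∈ range p := mem_range.2 (Nat.mod_lt _ hp.pos)
    rw [← h2, mem_filter] at h3
    apply hn
    refine (h.dvd_iff ?_).1 h3.2
    have h4 : (n : ℤ) = (n % p : ℕ) + p * (n / p : ℕ) := by exact_mod_cast (Nat.mod_add_div n p).symm
    refine ⟨-((n / p : ℕ) : ℤ), ?_⟩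
    linarith
  have := card_lt_card h1
  rw [card_range] at this
  exact this

theorem fac_nonneg {k : ℕ} {G : ℕ → ℤ} (h : PF k G) (hn : NF G) {p : ℕ} (hp : p.Prime) :
    1 / (p : ℝ) ≤ 1 - (om G p : ℝ) / p := by
  have h0 : (0 : ℝ) < p := by exact_mod_cast hp.pos
  have h1 : (om G p : ℝ) + 1 ≤ p := by exact_mod_cast om_lt h hn hp
  rw [le_sub_iff_add_le, ← add_div, div_le_one h0]
  linarith

theorem fac_le (G : ℕ → ℤ) (p : ℕ) : 1 - (om G p : ℝ) / p ≤ 1 := by
  have : 0 ≤ (om G p : ℝ) / p := by positivity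
  linarith

/-- `exp (-x - x ^ 2) ≤ 1 - x` for `0 ≤ x ≤ 1 / 2` -/
theorem exp_le_one_sub {x : ℝ} (h0 : 0 ≤ x) (h1 : x ≤ 1 / 2) : Real.exp (-x - x ^ 2) ≤ 1 - x := by
  have h2 : Real.exp (x + x ^ 2) * (1 - x) ≥ 1 := by
    have h3 : 1 + (x + x ^ 2) + (x + x ^ 2) ^ 2 / 2 ≤ Real.exp (x + x ^ 2) := by
      have := Real.quadratic_le_exp_of_nonneg (show 0 ≤ x + x ^ 2 by positivity)
      linarith
    have h4 : (1 + (x + x ^ 2) + (x + x ^ 2) ^ 2 / 2) * (1 - x) ≥ 1 := by
      have e : (1 + (x + x ^ 2) + (x + x ^ 2) ^ 2 / 2) * (1 - x) - 1 =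
          x ^ 2 / 2 * (1 - x - x ^ 2 - x ^ 3) := by ring
      have : 0 ≤ 1 - x - x ^ 2 - x ^ 3 := by
        have h5 : x ^ 2 ≤ 1 / 4 := by nlinarith
        have h6 : x ^ 3 ≤ 1 / 8 := by nlinarith [mul_nonneg h0 (sq_nonneg x)]
        linarith
      nlinarith [mul_nonneg (show 0 ≤ x ^ 2 / 2 by positivity) this]
    calc Real.exp (x + x ^ 2) * (1 - x) ≥ (1 + (x + x ^ 2) + (x + x ^ 2) ^ 2 / 2) * (1 - x) :=
          mul_le_mul_of_nonneg_right h3 (by linarith)
      _ ≥ 1 := h4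
  have e : -x - x ^ 2 = -(x + x ^ 2) := by ring
  rw [e, Real.exp_neg, inv_le_comm₀ (Real.exp_pos _) (by linarith)]
  rw [inv_eq_one_div, div_le_iff₀ (by linarith)]
  linarith

theorem tail (k : ℕ) : ∃ c : ℝ, 0 < c ∧ c ≤ 1 ∧ ∀ a b : ℕ, 2 ≤ a → 2 * k ≤ a → a ≤ b → ∀ G : ℕ → ℤ, PF k G → NF G →
    c * (Real.log a / Real.log b) ^ k ≤ ∏ p ∈ (Ioc a b).filter Nat.Prime, (1 - (om G p : ℝ) / p) := by
  obtain ⟨C, hC0, hC⟩ := Pool.Agent.Helper923.HMertens.mertens_ratio
  have hl2 : (0 : ℝ) < Real.log 2 := Real.log_pos (by norm_num)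
  refine ⟨Real.exp (-(k * (C / Real.log 2) + k ^ 2)), Real.exp_pos _, ?_, ?_⟩
  · rw [Real.exp_le_one_iff]
    have : 0 ≤ (k : ℝ) * (C / Real.log 2) + (k : ℝ) ^ 2 := by positivity
    linarith
  intro a b ha hka hab G hG hn
  have ha0 : (0 : ℝ) < a := by exact_mod_cast (by omega : 0 < a)
  have hla : 0 < Real.log a := Real.log_pos (by exact_mod_cast (by omega : 1 < a))
  have hlb : 0 < Real.log b := Real.log_pos (by exact_mod_cast (by omega : 1 < b))
  have hla2 : Real.log 2 ≤ Real.log a := Real.log_le_log (by norm_num) (by exact_mod_cast ha)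
  have h1 := hC a b ha hab
  have h2 : ∑ p ∈ (Ioc a b).filter Nat.Prime, (1 : ℝ) / p ≤ Real.log (Real.log b / Real.log a) + C / Real.log 2 := by
    have h3 := (abs_le.1 h1).2
    have h4 : C / Real.log a ≤ C / Real.log 2 := div_le_div_of_nonneg_left hC0 hl2 hla2
    linarith
  have h3 : ∑ p ∈ (Ioc a b).filter Nat.Prime, ((p : ℝ) ^ 2)⁻¹ ≤ 1 := by
    calc ∑ p ∈ (Ioc a b).filter Nat.Prime, ((p : ℝ) ^ 2)⁻¹ ≤ ∑ p ∈ Ioc a b, ((p : ℝ) ^ 2)⁻¹ :=
          sum_le_sum_of_subset_of_nonneg (filter_subset _ _) (fun p _ _ => by positivity)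
      _ ≤ (a : ℝ)⁻¹ - (b : ℝ)⁻¹ := sum_Ioc_inv_sq_le_sub (by omega) hab
      _ ≤ 1 := by
          have h4 : (a : ℝ)⁻¹ ≤ 1 := by
            rw [inv_le_one₀ ha0]
            exact_mod_cast (by omega : 1 ≤ a)
          have h5 : (0 : ℝ) ≤ (b : ℝ)⁻¹ := by positivity
          linarith
  have h4 : ∀ p ∈ (Ioc a b).filter Nat.Prime, Real.exp (-((k : ℝ) * (1 / p)) - (k : ℝ) ^ 2 * ((p : ℝ) ^ 2)⁻¹) ≤
      1 - (om G p : ℝ) / p := by
    intro p hp
    rw [mem_filter, mem_Ioc] at hp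
    have hp0 : (0 : ℝ) < p := by exact_mod_cast hp.2.pos
    have h5 : (k : ℝ) / p ≤ 1 / 2 := by
      rw [div_le_div_iff₀ hp0 (by norm_num)]
      have : 2 * k ≤ p := by omega
      have h6 : (2 : ℝ) * k ≤ p := by exact_mod_cast this
      linarith
    have h6 := exp_le_one_sub (show 0 ≤ (k : ℝ) / p by positivity) h5
    have h7 : (om G p : ℝ) / p ≤ k / p := by
      have := om_le hG hn hp.2
      have h8 : (om G p : ℝ) ≤ k := by exact_mod_cast this
      gcongr
    have e : -((k : ℝ) * (1 / p)) - (k : ℝ) ^ 2 * ((p : ℝ) ^ 2)⁻¹ = -((k : ℝ) / p) - ((k : ℝ) / p) ^ 2 := by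
      field_simp
    rw [e]
    linarith
  calc Real.exp (-(k * (C / Real.log 2) + k ^ 2)) * (Real.log a / Real.log b) ^ k =
        Real.exp (-(k * (C / Real.log 2) + k ^ 2)) * Real.exp (-(k * Real.log (Real.log b / Real.log a))) := by
        congr 1
        have e1 : Real.log a / Real.log b = Real.exp (-Real.log (Real.log b / Real.log a)) := by
          rw [Real.exp_neg, Real.exp_log (by positivity), inv_div]
        rw [e1, ← Real.exp_nat_mul]
        congr 1
        ring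
    _ = Real.exp (-((k : ℝ) * (Real.log (Real.log b / Real.log a) + C / Real.log 2)) - (k : ℝ) ^ 2 * 1) := by
        rw [← Real.exp_add]
        congr 1
        ring
    _ ≤ Real.exp (∑ p ∈ (Ioc a b).filter Nat.Prime, (-((k : ℝ) * (1 / p)) - (k : ℝ) ^ 2 * ((p : ℝ) ^ 2)⁻¹)) := by
        apply Real.exp_le_exp.2
        rw [sum_sub_distrib, sum_neg_distrib, ← mul_sum, ← mul_sum]
        have hk0 : (0 : ℝ) ≤ k := Nat.cast_nonneg _
        have h5 := mul_le_mul_of_nonneg_left h2 hk0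
        have h6 := mul_le_mul_of_nonneg_left h3 (show (0 : ℝ) ≤ (k : ℝ) ^ 2 by positivity)
        linarith
    _ = ∏ p ∈ (Ioc a b).filter Nat.Prime, Real.exp (-((k : ℝ) * (1 / p)) - (k : ℝ) ^ 2 * ((p : ℝ) ^ 2)⁻¹) :=
        Real.exp_sum _ _
    _ ≤ _ := Finset.prod_le_prod (fun p _ => (Real.exp_pos _).le) h4

/-- **comparison** -/
theorem WG_comp (k : ℕ) : ∃ c : ℝ, 0 < c ∧ ∀ a b : ℕ, 2 ≤ a → a ≤ b → ∀ G : ℕ → ℤ, PF k G → NF G →
    c * (Real.log a / Real.log b) ^ k * WG G a ≤ WG G b := by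
  classical
  obtain ⟨c, hc, hc1, h⟩ := tail k
  obtain ⟨z, hz⟩ : ∃ z : ℕ, z = 2 * k + 2 := ⟨_, rfl⟩
  have hfac : (0 : ℝ) < ∏ p ∈ (Ioc 0 z).filter Nat.Prime, (1 / (p : ℝ)) := prod_pos fun p hp => by
    have : (0 : ℝ) < p := by exact_mod_cast (mem_filter.1 hp).2.pos
    positivity
  refine ⟨c * ∏ p ∈ (Ioc 0 z).filter Nat.Prime, (1 / (p : ℝ)), by positivity, fun a b ha hab G hG hn => ?_⟩
  have hla : 0 < Real.log a := Real.log_pos (by exact_mod_cast (by omega : 1 < a))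
  have hlb : 0 < Real.log b := Real.log_pos (by exact_mod_cast (by omega : 1 < b))
  have hW := WG_nonneg G a
  have hsplit : WG G b = WG G a * ((∏ p ∈ ((Ioc a b).filter Nat.Prime).filter (fun p => p ≤ z), (1 - (om G p : ℝ) / p)) *
      ∏ p ∈ ((Ioc a b).filter Nat.Prime).filter (fun p => ¬ p ≤ z), (1 - (om G p : ℝ) / p)) := by
    rw [prod_filter_mul_prod_filter_not, WG_om, WG_om, ← prod_union]
    · congr 1
      ext p
      simp only [mem_union, mem_filter, mem_Icc, mem_Ioc]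
      constructor
      · rintro ⟨h1, h2⟩
        rcases Nat.lt_or_ge a p with h3 | h3
        · exact Or.inr ⟨⟨h3, h1.2⟩, h2⟩
        · exact Or.inl ⟨⟨h1.1, h3⟩, h2⟩
      · rintro (⟨h1, h2⟩ | ⟨h1, h2⟩)
        · exact ⟨⟨h1.1, h1.2.trans hab⟩, h2⟩
        · exact ⟨⟨by omega, h1.2⟩, h2⟩
    · rw [disjoint_left]
      intro p hp hp'
      simp only [mem_filter, mem_Icc, mem_Ioc] at hp hp'
      omega
  have hA : ∏ p ∈ (Ioc 0 z).filter Nat.Prime, (1 / (p : ℝ)) ≤
      ∏ p ∈ ((Ioc a b).filter Nat.Prime).filter (fun p => p ≤ z), (1 - (om G p : ℝ) / p) := by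
    have hs : ((Ioc a b).filter Nat.Prime).filter (fun p => p ≤ z) ⊆ (Ioc 0 z).filter Nat.Prime := by
      intro p hp
      simp only [mem_filter, mem_Ioc] at hp ⊢
      exact ⟨⟨hp.1.2.pos, hp.2⟩, hp.1.2⟩
    calc ∏ p ∈ (Ioc 0 z).filter Nat.Prime, (1 / (p : ℝ)) ≤
          ∏ p ∈ ((Ioc a b).filter Nat.Prime).filter (fun p => p ≤ z), (1 / (p : ℝ)) := by
          rw [← prod_sdiff hs]
          apply mul_le_of_le_one_left
          · exact prod_nonneg fun p _ => by positivity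
          · apply prod_le_one
            · intro p _
              positivity
            · intro p hp
              have h1 : (1 : ℝ) ≤ p := by exact_mod_cast (mem_filter.1 (Finset.mem_sdiff.1 hp).1).2.one_lt.le
              rw [div_le_one (by linarith)]
              exact h1
      _ ≤ _ := Finset.prod_le_prod (fun p _ => by positivity) fun p hp =>
          fac_nonneg hG hn (mem_filter.1 (mem_filter.1 hp).1).2
  have hB : c * (Real.log a / Real.log b) ^ k ≤
      ∏ p ∈ ((Ioc a b).filter Nat.Prime).filter (fun p => ¬ p ≤ z), (1 - (om G p : ℝ) / p) := by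
    have hset : ((Ioc a b).filter Nat.Prime).filter (fun p => ¬ p ≤ z) = (Ioc (max a z) b).filter Nat.Prime := by
      ext p
      simp only [mem_filter, mem_Ioc, max_lt_iff, not_le]
      tauto
    rw [hset]
    have hle1 : (Real.log a / Real.log b) ^ k ≤ 1 := by
      apply pow_le_one₀ (by positivity)
      rw [div_le_one hlb]
      exact Real.log_le_log (by exact_mod_cast (by omega : 0 < a)) (by exact_mod_cast hab)
    rcases Nat.lt_or_ge b (max a z) with h1 | h1
    · have h2 : (Ioc (max a z) b).filter Nat.Prime = ∅ := by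
        rw [Ioc_eq_empty (by omega), filter_empty]
      rw [h2, prod_empty]
      have h3 : 0 ≤ (Real.log a / Real.log b) ^ k := by positivity
      nlinarith
    · have h2 := h (max a z) b (le_max_of_le_left ha) (le_max_of_le_right (by omega)) h1 G hG hn
      refine le_trans ?_ h2
      apply mul_le_mul_of_nonneg_left _ hc.le
      apply pow_le_pow_left₀ (by positivity)
      apply div_le_div_of_nonneg_right _ hlb.le
      exact Real.log_le_log (by exact_mod_cast (by omega : 0 < a)) (by exact_mod_cast (le_max_left a z))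
  rw [hsplit]
  have hB0 : 0 ≤ c * (Real.log a / Real.log b) ^ k := by positivity
  calc c * (∏ p ∈ (Ioc 0 z).filter Nat.Prime, (1 / (p : ℝ))) * (Real.log a / Real.log b) ^ k * WG G a =
        WG G a * ((∏ p ∈ (Ioc 0 z).filter Nat.Prime, (1 / (p : ℝ))) * (c * (Real.log a / Real.log b) ^ k)) := by ring
    _ ≤ _ := by
        apply mul_le_mul_of_nonneg_left _ hW
        exact mul_le_mul hA hB hB0 (hfac.le.trans hA)

/-- the order of the sieve product from below -/
theorem WG_low (k : ℕ) : ∃ c : ℝ, 0 < c ∧ ∀ b : ℕ, 2 ≤ b → ∀ G : ℕ → ℤ, PF k G → NF G →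
    c / Real.log b ^ k ≤ WG G b := by
  obtain ⟨c, hc, h⟩ := WG_comp k
  have hl2 : (0 : ℝ) < Real.log 2 := Real.log_pos (by norm_num)
  refine ⟨c * Real.log 2 ^ k * (1 / 2), by positivity, fun b hb G hG hn => ?_⟩
  have hlb : 0 < Real.log b := Real.log_pos (by exact_mod_cast (by omega : 1 < b))
  have h1 := h 2 b le_rfl hb G hG hn
  have h2 : (1 : ℝ) / 2 ≤ WG G 2 := by
    rw [WG_om]
    have e : (Icc 1 2).filter Nat.Prime = {2} := by decide
    rw [e, prod_singleton]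
    have := fac_nonneg hG hn Nat.prime_two
    exact_mod_cast this
  refine le_trans ?_ h1
  rw [div_pow]
  calc c * Real.log 2 ^ k * (1 / 2) / Real.log b ^ k = c * (Real.log 2 ^ k / Real.log b ^ k) * (1 / 2) := by ring
    _ ≤ _ := by
        push_cast
        apply mul_le_mul_of_nonneg_left h2
        positivity

/-- the product decreases -/
theorem WG_anti {k : ℕ} {G : ℕ → ℤ} (hG : PF k G) (hn : NF G) {a b : ℕ} (hab : a ≤ b) : WG G b ≤ WG G a := by
  rw [WG_om, WG_om]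
  have hs : (Icc 1 a).filter Nat.Prime ⊆ (Icc 1 b).filter Nat.Prime := by
    intro p hp
    simp only [mem_filter, mem_Icc] at hp ⊢
    exact ⟨⟨hp.1.1, hp.1.2.trans hab⟩, hp.2⟩
  rw [← prod_sdiff hs]
  apply mul_le_of_le_one_left
  · apply prod_nonneg
    intro p hp
    exact le_trans (by positivity) (fac_nonneg hG hn (mem_filter.1 hp).2)
  · apply prod_le_one
    · intro p hp
      exact le_trans (by positivity) (fac_nonneg hG hn (mem_filter.1 (Finset.mem_sdiff.1 hp).1).2)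
    · intro p _
      exact fac_le G p

end Pool.Agent.K1H73.RDW
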