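import Pool.Agent.Y816.PD.UniI

/-!
# Almost prime values of polynomials at integers with restricted digits in windows, uniformly in the polynomial
-/

set_option autoImplicit false

namespace Pool.Agent.K1H73.RDW

open Finset Filter Polynomial
open Pool.Agent.Y816.PD

theorem cop_iff (x : ℤ) (b : ℕ) : x.natAbs.Coprime b ↔ IsCoprime x (b : ℤ) := by
  rw [Int.isCoprime_iff_gcd_eq_one]
  exact Iff.rfl

/-- polynomial functions of degree at most `k` -/
def PF (k : ℕ) (G : ℕ → ℤ) : Prop := ∃ P : ℤ[X], P.natDegree ≤ k ∧ ∀ n : ℕ, P.eval (n : ℤ) = G n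

theorem PF.shift {k : ℕ} {G : ℕ → ℤ} (h : PF k G) (N : ℕ) : PF k (fun j => G (N + j)) := by
  obtain ⟨P, hP, hG⟩ := h
  refine ⟨P.comp (X + C (N : ℤ)), ?_, fun n => ?_⟩
  · rw [natDegree_comp, natDegree_X_add_C, mul_one]
    exact hP
  · show _ = G (N + n)
    rw [eval_comp, eval_add, eval_X, eval_C, ← hG (N + n)]
    congr 1
    push_cast
    ring

theorem PF.sub_dvd {k : ℕ} {G : ℕ → ℤ} (h : PF k G) (m n : ℕ) : (m : ℤ) - n ∣ G m - G n := by
  obtain ⟨P, hP, hG⟩ := h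
  rw [← hG m, ← hG n]
  exact sub_dvd_eval_sub _ _ _

theorem PF.dvd_iff {k : ℕ} {G : ℕ → ℤ} (h : PF k G) {p : ℤ} {m n : ℕ} (hp : p ∣ (m : ℤ) - n) : p ∣ G m ↔ p ∣ G n := by
  have h1 := hp.trans (h.sub_dvd m n)
  constructor
  · intro h2
    have := dvd_sub h2 h1
    rwa [sub_sub_cancel] at this
  · intro h2
    have := dvd_add h1 h2
    rwa [sub_add_cancel] at this

theorem card_shift {k : ℕ} {G : ℕ → ℤ} (h : PF k G) (N p : ℕ) :
    ((range p).filter (fun n : ℕ => (p : ℤ) ∣ G (N + n))).card = ((range p).filter (fun n : ℕ => (p : ℤ) ∣ G n)).card := by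
  classical
  have hper : Function.Periodic (fun n : ℕ => (p : ℤ) ∣ G n) p := by
    intro n
    apply propext
    apply h.dvd_iff
    push_cast
    rw [add_sub_cancel_left]
  have h1 := Nat.filter_Ico_card_eq_of_periodic N p (fun n : ℕ => (p : ℤ) ∣ G n) hper
  rw [Nat.count_eq_card_filter_range] at h1
  rw [← h1]
  apply card_bij (fun n _ => N + n)
  · intro n hn
    rw [mem_filter, mem_range] at hn
    rw [mem_filter, mem_Ico]
    exact ⟨⟨by omega, by omega⟩, hn.2⟩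
  · intro a _ b _ hab
    exact Nat.add_left_cancel hab
  · intro m hm
    rw [mem_filter, mem_Ico] at hm
    refine ⟨m - N, ?_, by omega⟩
    rw [mem_filter, mem_range]
    refine ⟨by omega, ?_⟩
    rw [Nat.add_sub_cancel' hm.1.1]
    exact hm.2

theorem WG_shift {k : ℕ} {G : ℕ → ℤ} (h : PF k G) (N x : ℕ) : WG (fun j => G (N + j)) x = WG G x := by
  classical
  unfold WG
  apply prod_congr rfl
  intro p _
  have h1 := card_shift h N p
  have h2 : (((range p).filter (fun n : ℕ => (p : ℤ) ∣ G (N + n))).card : ℝ) =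
      (((range p).filter (fun n : ℕ => (p : ℤ) ∣ G n)).card : ℝ) := by exact_mod_cast h1
  convert congrArg (fun t : ℝ => 1 - t / (p : ℝ)) h2 using 4

/-- **Almost prime values at integers with restricted digits in windows.** -/
theorem win (κ0 D : ℕ) (hκ0 : 1 ≤ κ0) :
    ∃ c : ℝ, 0 < c ∧ ∃ r0 : ℕ, 2 ≤ r0 ∧ ∀ r : ℕ, r0 ≤ r → ∀ b : ℕ, 2 ≤ b → ∀ M : ℕ, ∃ κ C : ℝ, 0 < κ ∧ 0 < C ∧
      ∀ᶠ K : ℕ in atTop, ∀ G : ℕ → ℤ, PF κ0 G → (∀ p : ℕ, p.Prime → ∃ n : ℕ, ¬ (p : ℤ) ∣ G n) →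
        ∀ x y : ℕ, 3 * b ^ K ≤ y → y ≤ M * b ^ K → (∀ n : ℕ, n < x + y + b ^ K → (G n).natAbs ≤ b ^ (D * K)) →
        ∀ A : ℕ → Finset ℕ, (∀ i < K, A i ⊆ range b) → (b : ℝ) ^ K ≤ Real.exp (c * K) * NA K A →
        ((∃ d ∈ A 0, (G d).natAbs.Coprime b) →
          κ * NA K A * WG G (b ^ K) ≤ IC b K A x (x + y) (Alm G r (b ^ K))) ∧
        (IC b K A x (x + y) {m | ∀ p : ℕ, p.Prime → (p : ℤ) ∣ G m → b ^ K ≤ p ^ r} : ℝ) ≤
          C * NA K A * WG G (b ^ K) := by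
  classical
  obtain ⟨c, hc, r0, hr0, h⟩ := uni_fun κ0 D hκ0
  refine ⟨c, hc, r0, hr0, fun r hr b hb M => ?_⟩
  obtain ⟨κ, C, hκ, hC, h1⟩ := h r hr b hb
  refine ⟨κ, (M + 2) * C, hκ, by positivity, ?_⟩
  filter_upwards [h1, eventually_ge_atTop 1] with K hKK hK G hG hadm x y hy1 hy2 hsize A hA hprod
  have hb0 : 0 < b := by omega
  have hbK0 : 0 < b ^ K := by positivity
  have hNA := NA_nonneg K A
  have hW := WG_nonneg G (b ^ K)
  -- the shifted functions
  have hadm' : ∀ N : ℕ, ∀ p : ℕ, p.Prime → ∃ n : ℕ, ¬ (p : ℤ) ∣ G (N + n) := by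
    intro N p hp
    obtain ⟨n, hn⟩ := hadm p hp
    refine ⟨n + (p * N - N), fun hd => hn ?_⟩
    have h2 : N ≤ p * N := Nat.le_mul_of_pos_left N hp.pos
    refine (hG.dvd_iff (m := N + (n + (p * N - N))) (n := n) ?_).1 hd
    have h3 : N + (n + (p * N - N)) = n + p * N := by omega
    rw [h3]
    push_cast
    rw [add_sub_cancel_left]
    exact dvd_mul_right _ _
  have key : ∀ t : ℕ, b ^ K * t ≤ x + y →
      ((∃ d ∈ A 0, (G (b ^ K * t + d)).natAbs.Coprime b) → κ * NA K A * WG G (b ^ K) ≤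
        ND b K A (Alm (fun j => G (b ^ K * t + j)) r (b ^ K))) ∧
      (ND b K A (Rgh (fun j => G (b ^ K * t + j)) r) : ℝ) ≤ C * NA K A * WG G (b ^ K) := by
    intro t ht
    have h2 := hKK (fun j => G (b ^ K * t + j)) (hG.shift _) (hadm' _) (fun n hn => hsize _ (by omega)) A hA hprod
    rw [WG_shift hG] at h2
    exact h2
  constructor
  · rintro ⟨d, hd, hcop⟩
    have ht1 : x < b ^ K * (x / b ^ K + 1) := by
      have := Nat.lt_mul_div_succ x hbK0
      exact this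
    have ht2 : b ^ K * (x / b ^ K + 1) ≤ x + b ^ K := by
      have := Nat.mul_div_le x (b ^ K)
      rw [mul_add, mul_one]
      omega
    obtain ⟨h2, -⟩ := key (x / b ^ K + 1) (by omega)
    refine (h2 ⟨d, hd, ?_⟩).trans ?_
    · have h3 : (b : ℤ) ∣ G (b ^ K * (x / b ^ K + 1) + d) - G d := by
        refine Dvd.dvd.trans ?_ (hG.sub_dvd _ _)
        push_cast
        rw [add_sub_cancel_right]
        exact Dvd.dvd.mul_right (dvd_pow_self _ (by omega)) _
      rw [cop_iff] at hcop ⊢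
      obtain ⟨u, hu⟩ := h3
      have h4 : G (b ^ K * (x / b ^ K + 1) + d) = G d + (b : ℤ) * u := by linarith
      rw [h4]
      exact hcop.add_mul_left_left u
    · apply Nat.cast_le.2
      exact IC_lower hb0 ht1 (by omega) (fun j _ hj => hj)
  · have h3 : ∀ t ∈ Icc (x / b ^ K) ((x + y) / b ^ K),
        (ND b K A {j | b ^ K * t + j ∈ {m | ∀ p : ℕ, p.Prime → (p : ℤ) ∣ G m → b ^ K ≤ p ^ r}} : ℝ) ≤
          C * NA K A * WG G (b ^ K) := by
      intro t ht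
      rw [mem_Icc] at ht
      have h4 : b ^ K * t ≤ x + y := (Nat.mul_le_mul_left _ ht.2).trans (Nat.mul_div_le _ _)
      obtain ⟨-, h5⟩ := key t h4
      refine le_trans ?_ h5
      apply Nat.cast_le.2
      apply ND_mono'
      intro j hj hjS p hp hd
      exact lt_of_lt_of_le hj (hjS p hp hd)
    have h4 : ((Icc (x / b ^ K) ((x + y) / b ^ K)).card : ℝ) ≤ M + 2 := by
      rw [Nat.card_Icc]
      have h5 : (x + y) / b ^ K ≤ x / b ^ K + M + 1 := by
        rw [← Nat.lt_succ_iff]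
        apply Nat.div_lt_of_lt_mul
        have h6 := Nat.lt_mul_div_succ x hbK0
        have h7 : b ^ K * (x / b ^ K + M + 1).succ = b ^ K * (x / b ^ K + 1) + M * b ^ K + b ^ K := by
          rw [Nat.succ_eq_add_one]; ring
        rw [h7]
        omega
      have h6 : (x + y) / b ^ K + 1 - x / b ^ K ≤ M + 2 := by omega
      exact_mod_cast h6
    calc (IC b K A x (x + y) {m | ∀ p : ℕ, p.Prime → (p : ℤ) ∣ G m → b ^ K ≤ p ^ r} : ℝ) ≤
        ((∑ t ∈ Icc (x / b ^ K) ((x + y) / b ^ K),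
          ND b K A {j | b ^ K * t + j ∈ {m | ∀ p : ℕ, p.Prime → (p : ℤ) ∣ G m → b ^ K ≤ p ^ r}} : ℕ) : ℝ) :=
          Nat.cast_le.2 (IC_upper hb0 A x (x + y) _)
      _ = ∑ t ∈ Icc (x / b ^ K) ((x + y) / b ^ K),
          (ND b K A {j | b ^ K * t + j ∈ {m | ∀ p : ℕ, p.Prime → (p : ℤ) ∣ G m → b ^ K ≤ p ^ r}} : ℝ) :=
          Nat.cast_sum _ _
      _ ≤ (Icc (x / b ^ K) ((x + y) / b ^ K)).card • (C * NA K A * WG G (b ^ K)) := sum_le_card_nsmul _ _ _ h3
      _ = (Icc (x / b ^ K) ((x + y) / b ^ K)).card * (C * NA K A * WG G (b ^ K)) := nsmul_eq_mul _ _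
      _ ≤ (M + 2) * (C * NA K A * WG G (b ^ K)) := mul_le_mul_of_nonneg_right h4 (by positivity)
      _ = _ := by ring

end Pool.Agent.K1H73.RDW
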